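import Mathlib

/-!
A surjective ring homomorphism (from a free algebra onto a product of fields) which is not
relatively left perfect.
-/

namespace Pool.Agent.Results.MP_874a88_al.NotRelativelyPerfect

/-- A left module `F` over an arbitrary ring `S` is flat if every linear relation in `F` is a
consequence of linear relations in `S` (the equational criterion of flatness). -/
def IsFlat (S F : Type) [Ring S] [AddCommGroup F] [Module S F] : Prop :=
  ∀ (n : ℕ) (r : Fin n → S) (x : Fin n → F), ∑ i, r i • x i = 0 →
    ∃ (m : ℕ) (a : Fin n → Fin m → S) (y : Fin m → F),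
      (∀ i, x i = ∑ j, a i j • y j) ∧ ∀ j, ∑ i, r i * a i j = 0

/-- For commutative rings this is flatness in the sense of Mathlib (tensor products). -/
theorem isFlat_iff (S F : Type) [CommRing S] [AddCommGroup F] [Module S F] :
    IsFlat S F ↔ Module.Flat S F := by
  rw [Module.Flat.iff_forall_isTrivialRelation]
  constructor
  · intro h l f x hfx
    obtain ⟨m, a, y, h1, h2⟩ := h l f x hfx
    exact ⟨m, a, y, h1, h2⟩
  · intro h n r x hrx
    obtain ⟨m, a, y, h1, h2⟩ := h hrx
    exact ⟨m, a, y, h1, h2⟩

/-- A left module `C` over `S` is cotorsion if `Ext^1(F, C) = 0` for every flat left module `F`,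
that is, every short exact sequence `0 → C → Y → F → 0` with `F` flat splits. -/
def IsCotorsion (S C : Type) [Ring S] [AddCommGroup C] [Module S C] : Prop :=
  ∀ (F Y : Type) [AddCommGroup F] [Module S F] [AddCommGroup Y] [Module S Y], IsFlat S F →
    ∀ (i : C →ₗ[S] Y) (p : Y →ₗ[S] F), Function.Injective i → Function.Surjective p →
      LinearMap.range i = LinearMap.ker p → ∃ s : F →ₗ[S] Y, p ∘ₗ s = LinearMap.id

/-- `f : R → A` is relatively left perfect if every left `A`-module whose underlying left
`R`-module is cotorsion is cotorsion. -/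
def RelativelyLeftPerfect {R A : Type} [Ring R] [Ring A] (f : R →+* A) : Prop :=
  ∀ (C : Type) [AddCommGroup C] [Module A C],
    @IsCotorsion R C _ _ (Module.compHom C f) → IsCotorsion A C

/-- `A` is finitely generated as a right `R`-module through `f : R → A`. -/
def FiniteRight {R A : Type} [Ring R] [Ring A] (f : R →+* A) : Prop :=
  ∃ (n : ℕ) (t : Fin n → A), ∀ a : A, ∃ r : Fin n → R, a = ∑ i, t i * f (r i)

/-! ### From a retraction to a section -/

theorem exists_section {S C Y F : Type} [Ring S] [AddCommGroup C] [Module S C]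
    [AddCommGroup Y] [Module S Y] [AddCommGroup F] [Module S F]
    (i : C →ₗ[S] Y) (p : Y →ₗ[S] F) (hp : Function.Surjective p)
    (hex : LinearMap.range i = LinearMap.ker p)
    (ρ : Y →+ C) (hρ : ∀ c, ρ (i c) = c) (hρs : ∀ (r : S) (y : Y), ρ (r • y) = r • ρ y) :
    ∃ s : F →ₗ[S] Y, p ∘ₗ s = LinearMap.id := by
  have key : ∀ u : Y, p u = 0 → ρ u = 0 → u = 0 := by
    intro u h1 h2
    have h3 : u ∈ LinearMap.range i := by rw [hex]; exact h1
    obtain ⟨c, rfl⟩ := h3
    rw [hρ] at h2
    rw [h2, map_zero]
  have hpi : ∀ c, p (i c) = 0 := by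
    intro c
    have : i c ∈ LinearMap.ker p := by rw [← hex]; exact ⟨c, rfl⟩
    exact this
  let s0 : F → Y := fun g => Function.surjInv hp g - i (ρ (Function.surjInv hp g))
  have h1 : ∀ g, p (s0 g) = g := by
    intro g
    simp only [s0, map_sub, hpi, sub_zero]
    exact Function.surjInv_eq hp g
  have h2 : ∀ g, ρ (s0 g) = 0 := by
    intro g
    simp only [s0, map_sub, hρ, sub_self]
  refine ⟨{ toFun := s0, map_add' := ?_, map_smul' := ?_ }, ?_⟩
  · intro g g'
    apply sub_eq_zero.mp
    apply key
    · rw [map_sub, map_add, h1, h1, h1, sub_self]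
    · rw [map_sub, map_add, h2, h2, h2]; simp
  · intro r g
    apply sub_eq_zero.mp
    apply key
    · rw [RingHom.id_apply, map_sub, map_smul, h1, h1, sub_self]
    · rw [RingHom.id_apply, map_sub, hρs, h2, h2]; simp
  · ext g
    exact h1 g

/-! ### Flatness and quotients by two-sided ideals -/

/-- The submodule `J Y` for `J` the kernel of `f`. -/
def kerSub {R A : Type} [Ring R] [Ring A] (f : R →+* A) (Y : Type) [AddCommGroup Y] [Module R Y] :
    Submodule R Y where
  carrier := {y | ∃ (n : ℕ) (r : Fin n → R) (z : Fin n → Y), (∀ j, f (r j) = 0) ∧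
    y = ∑ j, r j • z j}
  zero_mem' := ⟨0, Fin.elim0, Fin.elim0, fun j => j.elim0, by simp⟩
  add_mem' := by
    rintro _ _ ⟨n, r, z, h1, rfl⟩ ⟨n', r', z', h1', rfl⟩
    refine ⟨n + n', Fin.append r r', Fin.append z z', ?_, ?_⟩
    · intro j
      refine Fin.addCases (fun j => ?_) (fun j => ?_) j
      · rw [Fin.append_left]; exact h1 j
      · rw [Fin.append_right]; exact h1' j
    · rw [Fin.sum_univ_add]
      simp only [Fin.append_left, Fin.append_right]
  smul_mem' := by
    rintro c _ ⟨n, r, z, h1, rfl⟩
    refine ⟨n, fun j => c * r j, z, ?_, ?_⟩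
    · intro j
      rw [map_mul, h1, mul_zero]
    · rw [Finset.smul_sum]
      simp only [mul_smul]

theorem smul_mem_kerSub {R A : Type} [Ring R] [Ring A] (f : R →+* A) {Y : Type} [AddCommGroup Y]
    [Module R Y] {r : R} (hr : f r = 0) (y : Y) : r • y ∈ kerSub f Y :=
  ⟨1, fun _ => r, fun _ => y, fun _ => hr, by simp⟩

theorem split_of_injective {R A : Type} [Ring R] [Ring A] (f : R →+* A)
    (hf : Function.Surjective f) {E G Y : Type} [AddCommGroup E] [Module A E] [Module R E]
    (hE : ∀ (r : R) (e : E), r • e = f r • e) [hinj : Module.Injective A E]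
    [AddCommGroup G] [Module R G] [AddCommGroup Y] [Module R Y] (hG : IsFlat R G)
    (i : E →ₗ[R] Y) (p : Y →ₗ[R] G) (hi : Function.Injective i) (hp : Function.Surjective p)
    (hex : LinearMap.range i = LinearMap.ker p) :
    ∃ s : G →ₗ[R] Y, p ∘ₗ s = LinearMap.id := by
  have hpi : ∀ c, p (i c) = 0 := by
    intro c
    have : i c ∈ LinearMap.ker p := by rw [← hex]; exact ⟨c, rfl⟩
    exact this
  -- purity
  have pure : ∀ e : E, i e ∈ kerSub f Y → e = 0 := by
    rintro e ⟨n, r, z, hr, hz⟩
    have h0 : ∑ j, r j • p (z j) = 0 := by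
      rw [← hpi e, hz, map_sum]
      simp only [map_smul]
    obtain ⟨m, a, y, h1, h2⟩ := hG n r (fun j => p (z j)) h0
    choose w hw using fun l => hp (y l)
    have h3 : ∀ j, ∃ c : E, i c = z j - ∑ l, a j l • w l := by
      intro j
      have : z j - ∑ l, a j l • w l ∈ LinearMap.range i := by
        rw [hex, LinearMap.mem_ker, map_sub, map_sum]
        simp only [map_smul, hw]
        rw [← h1 j, sub_self]
      exact this
    choose c hc using h3
    have h4 : i e = i (∑ j, r j • c j) := by
      rw [map_sum, hz]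
      simp only [map_smul, hc, smul_sub, Finset.sum_sub_distrib]
      rw [sub_eq_add_neg, left_eq_add, neg_eq_zero]
      simp only [Finset.smul_sum, ← mul_smul]
      rw [Finset.sum_comm]
      simp only [← Finset.sum_smul, h2, zero_smul, Finset.sum_const_zero]
    have h5 : ∑ j, r j • c j = 0 := by
      apply Finset.sum_eq_zero
      intro j _
      rw [hE, hr, zero_smul]
    rw [h5, map_zero] at h4
    apply hi
    rw [h4, map_zero]
  -- the quotient as an `A`-module
  let V := Y ⧸ kerSub f Y
  have hkill : RingHom.ker f ≤ RingHom.ker (Module.toAddMonoidEnd R V) := by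
    intro r hr
    rw [RingHom.mem_ker] at hr ⊢
    ext v
    obtain ⟨y, rfl⟩ := Submodule.mkQ_surjective _ v
    change r • (kerSub f Y).mkQ y = 0
    rw [← map_smul]
    rw [Submodule.mkQ_apply, Submodule.Quotient.mk_eq_zero]
    exact smul_mem_kerSub f hr y
  let φ : A →+* AddMonoid.End V := f.liftOfSurjective hf ⟨Module.toAddMonoidEnd R V, hkill⟩
  let modV : Module A V := Module.compHom V φ
  have hsm : ∀ (r : R) (v : V), f r • v = r • v := by
    intro r v
    change φ (f r) v = r • v
    have : φ (f r) = Module.toAddMonoidEnd R V r :=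
      RingHom.liftOfSurjective_comp_apply f hf ⟨Module.toAddMonoidEnd R V, hkill⟩ r
    rw [this]
    rfl
  let i1 : E →ₗ[A] V :=
    { toFun := fun e => (kerSub f Y).mkQ (i e)
      map_add' := fun e e' => by simp only [map_add]
      map_smul' := fun a e => by
        obtain ⟨r, rfl⟩ := hf a
        rw [← hE, RingHom.id_apply, hsm, map_smul, map_smul] }
  have hi1 : Function.Injective i1 := by
    rw [injective_iff_map_eq_zero]
    intro e he
    apply pure
    have : (kerSub f Y).mkQ (i e) = 0 := he
    rwa [Submodule.mkQ_apply, Submodule.Quotient.mk_eq_zero] at this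
  obtain ⟨h, hh⟩ := hinj.out i1 hi1 LinearMap.id
  let ρ : Y →+ E := h.toAddMonoidHom.comp (kerSub f Y).mkQ.toAddMonoidHom
  refine exists_section i p hp hex ρ ?_ ?_
  · intro c
    exact hh c
  · intro r y
    change h ((kerSub f Y).mkQ (r • y)) = r • h ((kerSub f Y).mkQ y)
    rw [map_smul, ← hsm, map_smul, hE]

/-! ### Extensions of modules over free algebras lift along surjections -/

/-- The underlying group `E × G`, which will carry a twisted module structure. -/
def Tw (E G : Type) : Type := E × G

instance (E G : Type) [AddCommGroup E] [AddCommGroup G] : AddCommGroup (Tw E G) :=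
  inferInstanceAs (AddCommGroup (E × G))

section Lift

variable {k X : Type} [Field k]

theorem exists_lift {E C Y G : Type} [AddCommGroup E] [AddCommGroup C] [AddCommGroup Y]
    [AddCommGroup G] [Module (FreeAlgebra k X) E] [Module (FreeAlgebra k X) C]
    [Module (FreeAlgebra k X) Y] [Module (FreeAlgebra k X) G]
    (π : E →ₗ[FreeAlgebra k X] C) (hπ : Function.Surjective π)
    (i : C →ₗ[FreeAlgebra k X] Y) (p : Y →ₗ[FreeAlgebra k X] G) (hi : Function.Injective i)
    (hp : Function.Surjective p) (hex : LinearMap.range i = LinearMap.ker p) :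
    ∃ (_ : Module (FreeAlgebra k X) (Tw E G)) (i' : E →ₗ[FreeAlgebra k X] Tw E G)
      (p' : Tw E G →ₗ[FreeAlgebra k X] G) (q : Tw E G →ₗ[FreeAlgebra k X] Y),
      Function.Injective i' ∧ Function.Surjective p' ∧ LinearMap.range i' = LinearMap.ker p' ∧
        ∀ z, p (q z) = p' z := by
  let R := FreeAlgebra k X
  let kE : Module k E := Module.compHom E (algebraMap k R)
  let kC : Module k C := Module.compHom C (algebraMap k R)
  let kY : Module k Y := Module.compHom Y (algebraMap k R)
  let kG : Module k G := Module.compHom G (algebraMap k R)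
  have tE : IsScalarTower k R E := ⟨fun c r y => by
    change (c • r) • y = algebraMap k R c • r • y
    rw [Algebra.smul_def, mul_smul]⟩
  have tC : IsScalarTower k R C := ⟨fun c r y => by
    change (c • r) • y = algebraMap k R c • r • y
    rw [Algebra.smul_def, mul_smul]⟩
  have tY : IsScalarTower k R Y := ⟨fun c r y => by
    change (c • r) • y = algebraMap k R c • r • y
    rw [Algebra.smul_def, mul_smul]⟩
  have tG : IsScalarTower k R G := ⟨fun c r y => by
    change (c • r) • y = algebraMap k R c • r • y
    rw [Algebra.smul_def, mul_smul]⟩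
  have hpi : ∀ c, p (i c) = 0 := by
    intro c
    have : i c ∈ LinearMap.ker p := by rw [← hex]; exact ⟨c, rfl⟩
    exact this
  obtain ⟨s, hs⟩ := LinearMap.exists_rightInverse_of_surjective (p.restrictScalars k)
    (LinearMap.range_eq_top.mpr hp)
  obtain ⟨t, ht⟩ := LinearMap.exists_rightInverse_of_surjective (π.restrictScalars k)
    (LinearMap.range_eq_top.mpr hπ)
  obtain ⟨l, hl⟩ := LinearMap.exists_leftInverse_of_injective (i.restrictScalars k)
    (LinearMap.ker_eq_bot.mpr hi)
  have hs' : ∀ g, p (s g) = g := fun g => LinearMap.congr_fun hs g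
  have ht' : ∀ c, π (t c) = c := fun c => LinearMap.congr_fun ht c
  have hl' : ∀ c, l (i c) = c := fun c => LinearMap.congr_fun hl c
  -- the defect of the section
  let D : X → (G →ₗ[k] Y) := fun x =>
    (Algebra.lsmul k k Y (FreeAlgebra.ι k x : R)) ∘ₗ s -
      s ∘ₗ (Algebra.lsmul k k G (FreeAlgebra.ι k x : R))
  have hD : ∀ x g, D x g = (FreeAlgebra.ι k x : R) • s g - s ((FreeAlgebra.ι k x : R) • g) :=
    fun x g => rfl
  let δ : X → (G →ₗ[k] C) := fun x => l ∘ₗ D x
  have hδ : ∀ x g, i (δ x g) = (FreeAlgebra.ι k x : R) • s g - s ((FreeAlgebra.ι k x : R) • g) := by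
    intro x g
    have h1 : D x g ∈ LinearMap.range i := by
      rw [hex, LinearMap.mem_ker, hD, map_sub, map_smul, hs', hs', sub_self]
    obtain ⟨c, hc⟩ := h1
    change i (l (D x g)) = _
    rw [← hc, hl', hc, hD]
  let T : X → Module.End k (E × G) := fun x =>
    LinearMap.prod
      ((Algebra.lsmul k k E (FreeAlgebra.ι k x : R)) ∘ₗ LinearMap.fst k E G +
        t ∘ₗ δ x ∘ₗ LinearMap.snd k E G)
      ((Algebra.lsmul k k G (FreeAlgebra.ι k x : R)) ∘ₗ LinearMap.snd k E G)
  have hT : ∀ x (v : E × G), T x v = ((FreeAlgebra.ι k x : R) • v.1 + t (δ x v.2),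
      (FreeAlgebra.ι k x : R) • v.2) := fun x v => rfl
  let ρ : R →ₐ[k] Module.End k (E × G) := FreeAlgebra.lift k T
  have hρι : ∀ x, ρ (FreeAlgebra.ι k x) = T x := fun x => FreeAlgebra.lift_ι_apply T x
  -- the module structure
  let modZ : Module R (Tw E G) :=
    { smul := fun r v => (ρ r (v : E × G) : E × G)
      one_smul := fun v => by
        change ρ 1 (v : E × G) = v
        rw [map_one]; rfl
      mul_smul := fun a b v => by
        change ρ (a * b) (v : E × G) = ρ a (ρ b (v : E × G))
        rw [map_mul]; rfl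
      smul_zero := fun a => by
        change ρ a (0 : E × G) = 0
        rw [map_zero]
      smul_add := fun a v w => map_add (ρ a) (v : E × G) (w : E × G)
      add_smul := fun a b v => by
        change ρ (a + b) (v : E × G) = ρ a (v : E × G) + ρ b (v : E × G)
        rw [map_add]; rfl
      zero_smul := fun v => by
        change ρ 0 (v : E × G) = 0
        rw [map_zero]; rfl }
  have hsm : ∀ (r : R) (v : Tw E G), r • v = (ρ r (v : E × G) : E × G) := fun r v => rfl
  have hk : ∀ (c : k) (y : Y), algebraMap k R c • y = c • y := fun c y => rfl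
  have hk' : ∀ (c : k) (y : G), algebraMap k R c • y = c • y := fun c y => rfl
  have hk'' : ∀ (c : k) (y : E), algebraMap k R c • y = c • y := fun c y => rfl
  -- the three maps
  have claim1 : ∀ (r : R) (e : E), ρ r (e, 0) = (r • e, 0) := by
    intro r
    refine FreeAlgebra.induction k X (motive := fun r => ∀ e : E, ρ r (e, 0) = (r • e, 0))
      ?_ ?_ ?_ ?_ r
    · intro c e
      rw [AlgHom.commutes, Module.algebraMap_end_apply, hk'']
      ext <;> simp
    · intro x e
      rw [hρι, hT]
      simp
    · intro a b ha hb e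
      rw [map_mul, Module.End.mul_apply, hb, ha, mul_smul]
    · intro a b ha hb e
      rw [map_add, LinearMap.add_apply, ha, hb, add_smul]
      simp
  have claim2 : ∀ (r : R) (v : E × G), (ρ r v).2 = r • v.2 := by
    intro r
    refine FreeAlgebra.induction k X (motive := fun r => ∀ v : E × G, (ρ r v).2 = r • v.2)
      ?_ ?_ ?_ ?_ r
    · intro c v
      rw [AlgHom.commutes, Module.algebraMap_end_apply, hk']
      rfl
    · intro x v
      rw [hρι, hT]
    · intro a b ha hb v
      rw [map_mul, Module.End.mul_apply, ha, hb, mul_smul]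
    · intro a b ha hb v
      rw [map_add, LinearMap.add_apply, Prod.snd_add, ha, hb, add_smul]
  let q0 : E × G →ₗ[k] Y :=
    (i.restrictScalars k) ∘ₗ (π.restrictScalars k) ∘ₗ LinearMap.fst k E G +
      s ∘ₗ LinearMap.snd k E G
  have hq0 : ∀ v : E × G, q0 v = i (π v.1) + s v.2 := fun v => rfl
  have claim3 : ∀ (r : R) (v : E × G), q0 (ρ r v) = r • q0 v := by
    intro r
    refine FreeAlgebra.induction k X (motive := fun r => ∀ v : E × G, q0 (ρ r v) = r • q0 v)
      ?_ ?_ ?_ ?_ r
    · intro c v
      rw [AlgHom.commutes, Module.algebraMap_end_apply, hk, map_smul]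
    · intro x v
      rw [hρι, hT, hq0, hq0, map_add, map_add, ht', hδ, map_smul, map_smul, smul_add]
      abel
    · intro a b ha hb v
      rw [map_mul, Module.End.mul_apply, ha, hb, mul_smul]
    · intro a b ha hb v
      have h1 : ρ (a + b) v = ρ a v + ρ b v := by rw [map_add]; rfl
      rw [h1]
      refine (map_add q0 _ _).trans ?_
      rw [ha, hb, add_smul]
  refine ⟨modZ,
    { toFun := fun e => ((e, 0) : E × G), map_add' := ?_, map_smul' := ?_ },
    { toFun := fun v => (v : E × G).2, map_add' := ?_, map_smul' := ?_ },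
    { toFun := fun v => q0 (v : E × G), map_add' := ?_, map_smul' := ?_ }, ?_, ?_, ?_, ?_⟩
  · intro e e'
    exact Prod.ext rfl (add_zero (0 : G)).symm
  · intro r e
    exact (claim1 r e).symm
  · intro v w
    rfl
  · intro r v
    exact claim2 r v
  · intro v w
    exact map_add q0 v w
  · intro r v
    exact claim3 r v
  · intro e e' h
    exact congrArg Prod.fst h
  · intro g
    exact ⟨((0, g) : E × G), rfl⟩
  · ext v
    constructor
    · rintro ⟨e, rfl⟩
      rfl
    · intro hv
      refine ⟨(v : E × G).1, ?_⟩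
      change (((v : E × G).1, 0) : E × G) = v
      have : (v : E × G).2 = 0 := hv
      exact Prod.ext rfl this.symm
  · intro v
    change p (i (π (v : E × G).1) + s (v : E × G).2) = (v : E × G).2
    rw [map_add, hpi, hs', zero_add]

end Lift

/-! ### The Boolean ring of all sequences over the field with two elements -/

/-- The commutative ring of all sequences over the field with two elements. -/
abbrev B : Type := ℕ → ZMod 2

/-- The maximal ideal of a free ultrafilter. -/
def I2 : Ideal B where
  carrier := {a | {n | a n = 0} ∈ Filter.hyperfilter ℕ}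
  zero_mem' := by
    change {n | (0 : B) n = 0} ∈ Filter.hyperfilter ℕ
    simp only [Pi.zero_apply, Set.ofPred_true]
    exact Filter.univ_mem
  add_mem' := by
    intro a b ha hb
    change {n | (a + b) n = 0} ∈ Filter.hyperfilter ℕ
    filter_upwards [ha, hb] with n h1 h2
    change a n + b n = 0
    rw [h1, h2, add_zero]
  smul_mem' := by
    intro c a ha
    change {n | (c • a) n = 0} ∈ Filter.hyperfilter ℕ
    filter_upwards [ha] with n h1
    change c n * a n = 0
    rw [h1, mul_zero]

theorem mem_I2 {a : B} : a ∈ I2 ↔ {n | a n = 0} ∈ Filter.hyperfilter ℕ := Iff.rfl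

theorem mul_self_B (a : B) : a * a = a := by
  funext n
  have : ∀ z : ZMod 2, z * z = z := by decide
  exact this (a n)

theorem eq_one_of_ne_zero {z : ZMod 2} (h : z ≠ 0) : z = 1 := by
  revert h
  revert z
  decide

/-- The unit sequence at `n`. -/
def dl (n : ℕ) : B := Pi.single n 1

theorem dl_mem (n : ℕ) : dl n ∈ I2 := by
  rw [mem_I2]
  filter_upwards [(Set.finite_singleton n).compl_mem_hyperfilter] with m hm
  rw [dl, Pi.single_eq_of_ne]
  exact hm

/-- The unit sequence as an element of the ideal. -/
def dI (n : ℕ) : I2 := ⟨dl n, dl_mem n⟩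

/-- The quotient is flat. -/
theorem isFlat_quot : IsFlat B (B ⧸ I2) := by
  intro n r x hx
  choose w hw using fun i => Ideal.Quotient.mk_surjective (x i)
  have hsm : ∀ (a b : B), a • (Ideal.Quotient.mk I2 b) = Ideal.Quotient.mk I2 (a * b) :=
    fun a b => rfl
  have hu : ∑ i, r i * w i ∈ I2 := by
    rw [← Ideal.Quotient.eq_zero_iff_mem, map_sum, ← hx]
    exact Finset.sum_congr rfl fun i _ => by rw [← hw i, hsm]
  refine ⟨1, fun i _ => (1 - ∑ i, r i * w i) * w i, fun _ => Ideal.Quotient.mk I2 1, ?_, ?_⟩
  · intro i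
    rw [Finset.univ_unique, Finset.sum_singleton, hsm, mul_one, ← hw i, Ideal.Quotient.eq]
    have : w i - (1 - ∑ i, r i * w i) * w i = w i * ∑ i, r i * w i := by ring
    rw [this]
    exact I2.mul_mem_left _ hu
  · intro j
    have : ∑ i, r i * ((1 - ∑ i, r i * w i) * w i) =
        (1 - ∑ i, r i * w i) * ∑ i, r i * w i := by
      rw [Finset.mul_sum]
      exact Finset.sum_congr rfl fun i _ => by ring
    rw [this, sub_mul, one_mul, mul_self_B, sub_self]

/-- The projection of the free module on the elements of the ideal. -/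
noncomputable def lc : (I2 →₀ B) →ₗ[B] B := Finsupp.linearCombination B (fun i : I2 => (i : B))

theorem lc_apply (v : I2 →₀ B) (n : ℕ) : lc v n = ∑ i ∈ v.support, v i n * (i : B) n := by
  rw [lc, Finsupp.linearCombination_apply, Finsupp.sum, Finset.sum_apply]
  rfl

/-- The ideal is not projective: the projection has no section. -/
theorem no_section (s : I2 →ₗ[B] (I2 →₀ B)) (hs : ∀ x : I2, lc (s x) = x) : False := by
  classical
  let G : I2 → ℕ → Prop := fun i n => s (dI n) i n * (i : B) n ≠ 0
  have ha : ∀ n, ∃ i ∈ (s (dI n)).support, G i n := by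
    intro n
    by_contra hcon
    push Not at hcon
    have h1 : lc (s (dI n)) n = 0 := by
      rw [lc_apply]
      exact Finset.sum_eq_zero fun i hi => not_not.mp (hcon i hi)
    rw [hs] at h1
    have h2 : (dl n) n = 1 := Pi.single_eq_same n 1
    change (dl n) n = 0 at h1
    rw [h2] at h1
    exact one_ne_zero h1
  have hc : ∀ (a : I2) (n : ℕ) (i : I2), (a : B) n ≠ 0 → G i n → i ∈ (s a).support := by
    intro a n i han hG
    rw [Finsupp.mem_support_iff]
    intro h0
    apply hG
    have h1 : dI n = dl n • a := by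
      apply Subtype.ext
      change dl n = dl n * (a : B)
      funext m
      change dl n m = dl n m * (a : B) m
      by_cases hm : m = n
      · subst hm
        rw [eq_one_of_ne_zero han, mul_one]
      · rw [dl, Pi.single_eq_of_ne hm, zero_mul]
    have h2 : s (dI n) i = dl n * s a i := by
      rw [h1, map_smul]
      rfl
    change s (dI n) i n * (i : B) n = 0
    rw [h2, h0, mul_zero]
    exact zero_mul _
  have hd : ∀ i : I2, {n | ¬ G i n} ∈ Filter.hyperfilter ℕ := by
    intro i
    filter_upwards [i.2] with n hn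
    intro hG
    apply hG
    have : (i : B) n = 0 := hn
    change s (dI n) i n * (i : B) n = 0
    rw [this, mul_zero]
  -- linked points
  let L : ℕ → Set ℕ := fun n => {m | ∃ i ∈ (s (dI n)).support, G i m}
  have hL : ∀ n, (L n)ᶜ ∈ Filter.hyperfilter ℕ := by
    intro n
    have h1 : (⋂ i ∈ (s (dI n)).support, {m | ¬ G i m}) ∈ Filter.hyperfilter ℕ :=
      (Filter.biInter_finset_mem _).mpr fun i _ => hd i
    filter_upwards [h1] with m hm
    rintro ⟨i, hi, hG⟩
    simp only [Set.mem_iInter] at hm
    exact hm i hi hG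
  obtain ⟨g, -, hg⟩ := exists_seq_of_forall_finset_exists (fun _ : ℕ => True)
    (fun x y => y ∉ L x) (by
      intro S _
      have h1 : (⋂ x ∈ S, (L x)ᶜ) ∈ Filter.hyperfilter ℕ :=
        (Filter.biInter_finset_mem _).mpr fun x _ => hL x
      obtain ⟨y, hy⟩ := (Filter.hyperfilter ℕ).neBot.nonempty_of_mem h1
      refine ⟨y, trivial, ?_⟩
      intro x hx
      simp only [Set.mem_iInter] at hy
      exact hy x hx)
  have hself : ∀ n, n ∈ L n := ha
  have hginj : ∀ m n, m < n → g m ≠ g n := by
    intro m n hmn heq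
    apply hg m n hmn
    rw [← heq]
    exact hself _
  have hginj' : Function.Injective g := by
    intro m n hmn
    rcases lt_trichotomy m n with h | h | h
    · exact absurd hmn (hginj m n h)
    · exact h
    · exact absurd hmn.symm (hginj n m h)
  choose ι hι1 hι2 using fun k => ha (g k)
  have hιinj' : ∀ m n, m < n → ι m ≠ ι n := by
    intro m n hmn heq
    apply hg m n hmn
    refine ⟨ι m, hι1 m, ?_⟩
    rw [heq]
    exact hι2 n
  have hιinj : Function.Injective ι := by
    intro m n hmn
    rcases lt_trichotomy m n with h | h | h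
    · exact absurd hmn (hιinj' m n h)
    · exact h
    · exact absurd hmn.symm (hιinj' n m h)
  -- one of two disjoint infinite sets is small
  have hT : ∃ e : ℕ, (Set.range fun k => g (2 * k + e))ᶜ ∈ Filter.hyperfilter ℕ := by
    rcases (Filter.hyperfilter ℕ).mem_or_compl_mem (Set.range fun k => g (2 * k + 0)) with h | h
    · refine ⟨1, ?_⟩
      filter_upwards [h] with m hm
      rintro ⟨l, hl⟩
      obtain ⟨k, hk⟩ := hm
      have h1 : g (2 * k + 0) = g (2 * l + 1) := hk.trans hl.symm
      have := hginj' h1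
      omega
    · exact ⟨0, h⟩
  obtain ⟨e, he⟩ := hT
  let a : B := fun n => if n ∈ (Set.range fun k => g (2 * k + e)) then 1 else 0
  have haI : a ∈ I2 := by
    rw [mem_I2]
    filter_upwards [he] with n hn
    exact if_neg hn
  have hfin : ∀ k, ι (2 * k + e) ∈ (s ⟨a, haI⟩).support := by
    intro k
    refine hc ⟨a, haI⟩ (g (2 * k + e)) _ ?_ (hι2 _)
    change a (g (2 * k + e)) ≠ 0
    have : a (g (2 * k + e)) = 1 := if_pos ⟨k, rfl⟩
    rw [this]
    exact one_ne_zero
  have hinf : ((s ⟨a, haI⟩).support : Set I2).Infinite := by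
    refine Set.infinite_of_injective_forall_mem (f := fun k => ι (2 * k + e)) ?_ hfin
    intro k l hkl
    have := hιinj hkl
    omega
  exact hinf (Finset.finite_toSet _)

/-- Modules embed into injective modules. -/
theorem exists_injective_embedding (S : Type) [Ring S] (P : Type) [AddCommGroup P] [Module S P] :
    ∃ (E : Type) (_ : AddCommGroup E) (_ : Module S E) (ι : P →ₗ[S] E),
      Function.Injective ι ∧ Module.Injective S E := by
  obtain ⟨J⟩ := CategoryTheory.EnoughInjectives.presentation (ModuleCat.of S P)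
  refine ⟨J.J, inferInstance, inferInstance, J.f.hom, ?_, ?_⟩
  · exact (ModuleCat.mono_iff_injective J.f).mp J.mono
  · have := J.injective
    exact Module.injective_module_of_injective_object S J.J

/-- The ring homomorphism from the free algebra on all elements of `B`. -/
noncomputable def toB : FreeAlgebra (ZMod 2) B →+* B :=
  (FreeAlgebra.lift (ZMod 2) (fun b : B => b)).toRingHom

theorem toB_ι (b : B) : toB (FreeAlgebra.ι (ZMod 2) b) = b :=
  FreeAlgebra.lift_ι_apply (R := ZMod 2) (fun b : B => b) b

theorem toB_surjective : Function.Surjective toB := fun b => ⟨_, toB_ι b⟩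

theorem toB_finiteRight : FiniteRight toB :=
  ⟨1, fun _ => 1, fun a => ⟨fun _ => FreeAlgebra.ι (ZMod 2) a, by simp [toB_ι]⟩⟩

/-- Quotients of injective modules are cotorsion over the free algebra. -/
theorem cotorsion_quotient (E C : Type) [AddCommGroup E] [Module B E] [AddCommGroup C]
    [Module B C] (hE : Module.Injective B E) (π : E →ₗ[B] C) (hπ : Function.Surjective π) :
    @IsCotorsion (FreeAlgebra (ZMod 2) B) C _ _ (Module.compHom C toB) := by
  let mE : Module (FreeAlgebra (ZMod 2) B) E := Module.compHom E toB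
  let mC : Module (FreeAlgebra (ZMod 2) B) C := Module.compHom C toB
  intro F Y _ _ _ _ hF i p hi hp hex
  let π' : E →ₗ[FreeAlgebra (ZMod 2) B] C :=
    { toFun := π, map_add' := map_add π, map_smul' := fun r e => map_smul π (toB r) e }
  obtain ⟨mZ, i', p', q, hi', hp', hex', hq⟩ := exists_lift π' hπ i p hi hp hex
  obtain ⟨s, hs⟩ := split_of_injective toB toB_surjective (E := E) (fun r e => rfl) hF i' p'
    hi' hp' hex'
  refine ⟨q ∘ₗ s, ?_⟩
  ext g
  change p (q (s g)) = g
  rw [hq]
  exact LinearMap.congr_fun hs g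

/-- There is a module over `B` which is a quotient of an injective module and not cotorsion. -/
theorem exists_not_cotorsion : ∃ (E C : Type) (_ : AddCommGroup E) (_ : Module B E)
    (_ : AddCommGroup C) (_ : Module B C) (π : E →ₗ[B] C), Module.Injective B E ∧
      Function.Surjective π ∧ ¬ IsCotorsion B C := by
  obtain ⟨E, _, _, ι, hι, hE⟩ := exists_injective_embedding B (I2 →₀ B)
  let K : Submodule B E := (LinearMap.ker lc).map ι
  refine ⟨E, E ⧸ K, inferInstance, inferInstance, inferInstance, inferInstance, K.mkQ, hE,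
    K.mkQ_surjective, ?_⟩
  intro hcot
  -- the homomorphism from the ideal
  have hmk : ∀ v w : I2 →₀ B, lc v = lc w → K.mkQ (ι v) = K.mkQ (ι w) := by
    intro v w hvw
    rw [← sub_eq_zero, ← map_sub, ← map_sub, Submodule.mkQ_apply, Submodule.Quotient.mk_eq_zero]
    refine ⟨v - w, ?_, rfl⟩
    change lc (v - w) = 0
    rw [map_sub, hvw, sub_self]
  have hlc : ∀ x : I2, lc (Finsupp.single x 1) = x := by
    intro x
    rw [lc, Finsupp.linearCombination_single, one_smul]
  let h : I2 →ₗ[B] (E ⧸ K) :=
    { toFun := fun x => K.mkQ (ι (Finsupp.single x 1))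
      map_add' := fun x y => by
        rw [← map_add, ← map_add]
        apply hmk
        rw [map_add, hlc, hlc, hlc]
        rfl
      map_smul' := fun r x => by
        rw [RingHom.id_apply, ← map_smul, ← map_smul]
        apply hmk
        rw [map_smul, hlc, hlc]
        rfl }
  -- the pushout
  let N : Submodule B ((E ⧸ K) × B) := LinearMap.range (h.prod (-I2.subtype))
  let Y := ((E ⧸ K) × B) ⧸ N
  let i : (E ⧸ K) →ₗ[B] Y := N.mkQ ∘ₗ LinearMap.inl B (E ⧸ K) B
  have hN : ∀ v : (E ⧸ K) × B, v ∈ N ↔ ∃ x : I2, h x = v.1 ∧ -(x : B) = v.2 := by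
    intro v
    constructor
    · rintro ⟨x, rfl⟩
      exact ⟨x, rfl, rfl⟩
    · rintro ⟨x, h1, h2⟩
      exact ⟨x, Prod.ext h1 h2⟩
  let p0 : (E ⧸ K) × B →ₗ[B] (B ⧸ I2) := I2.mkQ ∘ₗ LinearMap.snd B (E ⧸ K) B
  have hp0 : N ≤ LinearMap.ker p0 := by
    intro v hv
    obtain ⟨x, -, h2⟩ := (hN v).mp hv
    change I2.mkQ v.2 = 0
    rw [Submodule.mkQ_apply, Submodule.Quotient.mk_eq_zero, ← h2]
    exact I2.neg_mem x.2
  let p : Y →ₗ[B] (B ⧸ I2) := N.liftQ p0 hp0
  have hp : ∀ v : (E ⧸ K) × B, p (N.mkQ v) = I2.mkQ v.2 := fun v => rfl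
  have hi : Function.Injective i := by
    rw [injective_iff_map_eq_zero]
    intro c hc
    have h1 : N.mkQ (c, 0) = 0 := hc
    rw [Submodule.mkQ_apply, Submodule.Quotient.mk_eq_zero, hN] at h1
    obtain ⟨x, h2, h3⟩ := h1
    have h4 : x = 0 := by
      apply Subtype.ext
      exact neg_eq_zero.mp h3
    rw [h4, map_zero] at h2
    exact h2.symm
  have hps : Function.Surjective p := by
    intro b
    obtain ⟨a, rfl⟩ := I2.mkQ_surjective b
    exact ⟨N.mkQ (0, a), hp _⟩
  have hih : ∀ x : I2, i (h x) = N.mkQ (0, (x : B)) := by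
    intro x
    change N.mkQ (h x, 0) = N.mkQ (0, (x : B))
    rw [← sub_eq_zero, ← map_sub, Submodule.mkQ_apply, Submodule.Quotient.mk_eq_zero, hN]
    exact ⟨x, by simp, by simp⟩
  have hex : LinearMap.range i = LinearMap.ker p := by
    ext y
    constructor
    · rintro ⟨c, rfl⟩
      change p (N.mkQ (c, 0)) = 0
      rw [hp]
      exact map_zero _
    · intro hy
      obtain ⟨⟨c, a⟩, rfl⟩ := N.mkQ_surjective y
      have h1 : I2.mkQ a = 0 := hy
      rw [Submodule.mkQ_apply, Submodule.Quotient.mk_eq_zero] at h1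
      refine ⟨c + h ⟨a, h1⟩, ?_⟩
      rw [map_add, hih]
      change N.mkQ (c, 0) + N.mkQ (0, a) = N.mkQ (c, a)
      rw [← map_add]
      simp
  obtain ⟨s, hs⟩ := hcot (B ⧸ I2) Y isFlat_quot i p hi hps hex
  have hs' : ∀ b, p (s b) = b := fun b => LinearMap.congr_fun hs b
  -- the homomorphism extends to the ring
  have h1 : N.mkQ (0, 1) - s (I2.mkQ 1) ∈ LinearMap.range i := by
    rw [hex, LinearMap.mem_ker, map_sub, hs', hp, sub_self]
  obtain ⟨c0, hc0⟩ := h1
  have hext : ∀ x : I2, h x = (x : B) • c0 := by
    intro x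
    apply hi
    rw [hih, map_smul, hc0, smul_sub, ← map_smul, ← map_smul, ← map_smul]
    have h2 : (x : B) • (1 : B) = x := by rw [smul_eq_mul, mul_one]
    have h3 : I2.mkQ (x : B) = 0 := by
      rw [Submodule.mkQ_apply, Submodule.Quotient.mk_eq_zero]
      exact x.2
    rw [h2, h3, map_zero, sub_zero, Prod.smul_mk, smul_zero, h2]
  obtain ⟨e, rfl⟩ := K.mkQ_surjective c0
  have hrange : ∀ x : I2, ∃ v : I2 →₀ B, ι v = (x : B) • e ∧ lc v = x := by
    intro x
    have h2 : K.mkQ (ι (Finsupp.single x 1)) = (x : B) • K.mkQ e := hext x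
    rw [← map_smul, ← sub_eq_zero, ← map_sub, Submodule.mkQ_apply,
      Submodule.Quotient.mk_eq_zero] at h2
    obtain ⟨κ, hκ1, hκ2⟩ := h2
    refine ⟨Finsupp.single x 1 - κ, ?_, ?_⟩
    · rw [map_sub, hκ2]
      abel
    · have h3 : lc κ = 0 := hκ1
      rw [map_sub, hlc, h3, sub_zero]
  choose s0 h2 h3 using hrange
  refine no_section
    { toFun := s0, map_add' := fun x y => ?_, map_smul' := fun r x => ?_ } h3
  · apply hι
    rw [map_add, h2, h2, h2, ← add_smul]
    rfl
  · apply hι
    rw [RingHom.id_apply, map_smul, h2, h2, ← mul_smul]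
    rfl

/-- **Not relatively left perfect.** The surjective ring homomorphism from the free algebra over
the field with two elements on the set of all sequences over that field onto the commutative ring
of these sequences makes its target a finitely generated (even cyclic) right module, and it is not
relatively left perfect. -/
theorem result : ∃ f : FreeAlgebra (ZMod 2) (ℕ → ZMod 2) →+* (ℕ → ZMod 2),
    Function.Surjective f ∧ FiniteRight f ∧ ¬ RelativelyLeftPerfect f := by
  refine ⟨toB, toB_surjective, toB_finiteRight, ?_⟩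
  intro h
  obtain ⟨E, C, _, _, _, _, π, hE, hπ, hC⟩ := exists_not_cotorsion
  exact hC (h C (cotorsion_quotient E C hE π hπ))

end Pool.Agent.Results.MP_874a88_al.NotRelativelyPerfect
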